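import Pool.Agent.Helper47.Perc.Sum

/-!
Exact sum rules for critical bond percolation on the square lattice in a Young diagram.
-/

set_option autoImplicit false

open H47Perc

namespace Pool.Agent.Results.MP_35f495_pr.CornerSumRule

open Classical in
/-- Bond percolation on the square lattice, horizontal edges open with probability `h`, vertical
edges with probability `1 - h` (the critical line; `h = 1/2` is the isotropic critical point).
For every finite down-closed set `S` of the quadrant containing the corner `0`, with
`P z` = probability that `0` and `z` are joined by an open path in `S`: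
`h * (sum over right exits) + (1 - h) * (sum over top exits) = 1` and
`(1 - h) * (bottom sum) + h = (1 - h) * (sum over top exits) + h * (left sum)`. -/
theorem result (h : ℝ) (S : Finset (ℤ × ℤ)) (hS : IsYoung S) :
    h * (∑ z ∈ S.filter (fun z => z + (1, 0) ∉ S), perc (aniso h) S (fun ω => Joined ω (0, 0) z)) +
      (1 - h) *
        (∑ z ∈ S.filter (fun z => z + (0, 1) ∉ S), perc (aniso h) S (fun ω => Joined ω (0, 0) z))
      = 1 ∧
    (1 - h) * (∑ z ∈ S.filter (fun z => z.2 = 0), perc (aniso h) S (fun ω => Joined ω (0, 0) z)) + h
      = (1 - h) *
        (∑ z ∈ S.filter (fun z => z + (0, 1) ∉ S), perc (aniso h) S (fun ω => Joined ω (0, 0) z)) +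
        h * (∑ z ∈ S.filter (fun z => z.1 = 0), perc (aniso h) S (fun ω => Joined ω (0, 0) z)) :=
  sum_rule h S hS

end Pool.Agent.Results.MP_35f495_pr.CornerSumRule
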